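import Mathlib
import Pool.Agent.U828.CV.One
import Pool.Agent.TH935.GF
import Pool.Agent.TH935.GF2

/-! Goldbach's problem in windows: all the even integers near almost all values of one convex function (helper828). -/

set_option autoImplicit false

namespace Pool.Agent.U828.CV.At

open Finset

/-- the indices `1, ..., x` -/
abbrev Ix (x : ℕ) : Type := {m : ℕ // m ∈ Finset.Icc 1 x}

noncomputable instance instIx (x : ℕ) : Fintype (Ix x) := (inferInstance : Fintype {m : ℕ // m ∈ Finset.Icc 1 x})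

lemma En_le_energy (p x : ℕ) (s : ℕ → ℤ) :
    Pool.Agent.TH935.GF.En p (fun i : Ix x => s i.1) ≤ Pool.Agent.H373R2.T7.energy p x s := by
  classical
  unfold Pool.Agent.TH935.GF.En Pool.Agent.H373R2.T7.energy
  rw [Nat.card_eq_fintype_card, Fintype.card_subtype]
  apply card_le_card_of_injOn (fun q => ((fun j => (q.1 j).1), (fun j => (q.2 j).1)))
  · intro q hq
    rw [mem_coe, mem_filter] at hq
    rw [mem_coe, mem_filter, mem_product, Fintype.mem_piFinset, Fintype.mem_piFinset]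
    exact ⟨⟨fun j => (q.1 j).2, fun j => (q.2 j).2⟩, hq.2⟩
  · intro q _ q' _ h
    simp only [Prod.mk.injEq] at h
    apply Prod.ext
    · funext j
      exact Subtype.ext (congrFun h.1 j)
    · funext j
      exact Subtype.ext (congrFun h.2 j)

lemma card_sub (x : ℕ) : Fintype.card (Ix x) = x := by
  rw [Fintype.card_coe, Nat.card_Icc, Nat.add_sub_cancel]

/-- a theorem for finite families of integers gives `Crit1` -/
lemma crit1_of_fam {B h D V N : ℕ} {P : ℤ → Prop}
    (H : ∀ (ι : Type) [Fintype ι] (v : ι → ℤ), (∀ i, |v i| ≤ B * N) →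
      (Pool.Agent.TH935.GF.En h v : ℝ) * N ≤ Real.log N ^ D * (Fintype.card ι : ℝ) ^ (2 * h) →
      ∀ S : Finset ι, (∀ i ∈ S, ¬ P (v i)) → (S.card : ℝ) ≤ Fintype.card ι / Real.log N ^ V) :
    Crit1 B h D V N P := by
  classical
  intro x s hs hE S hS hSb
  have h1 := H (Ix x) (fun i => s i.1) (fun i => hs i.1 i.2) (by
    rw [card_sub]
    refine le_trans ?_ hE
    apply mul_le_mul_of_nonneg_right _ (Nat.cast_nonneg _)
    exact_mod_cast En_le_energy h x s) (S.subtype (fun m => m ∈ Icc 1 x)) (by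
    intro i hi
    exact hSb i.1 (mem_subtype.1 hi))
  rw [card_sub, card_subtype, filter_true_of_mem hS] at h1
  exact h1

/-- all the positive even integers near the values of a convex or concave function -/
theorem nearEven (A B C U m₀ : ℕ) (ε η : ℝ) (hε : 0 < ε) (hη : 0 < η) (P : ℕ → Prop)
    (hP : ∀ m : ℕ, m₀ ≤ m → 2 ∣ m → Pool.Agent.W93.PG.WinP ε A m → P m) :
    ∃ N₀ : ℕ, ∀ N : ℕ, N₀ ≤ N → ∀ x : ℕ, (N : ℝ) ^ (1 / 2 + η) ≤ x → x ≤ N →
    ∀ f : ℕ → ℝ, (∀ m ∈ Icc 1 x, |f m| ≤ B * N) →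
    StrictlyBent x f (N / ((x : ℝ) ^ 2 * Real.log N ^ C)) →
    ∀ T ⊆ Icc 1 x, (∀ m ∈ T, ∃ n : ℕ, 0 < n ∧ Even n ∧ |(n : ℝ) - f m| ≤ Real.log N ^ C ∧ ¬ P n) →
    (T.card : ℝ) ≤ x / Real.log N ^ U := by
  classical
  obtain ⟨p, D, V, n1, hp, h1⟩ := nearOne (B + 1) C U η hη
  obtain ⟨n2, h2⟩ := Pool.Agent.TH935.GF.transfer p (B + 1) D V P (by
    intro B C U
    exact Pool.Agent.TH935.GF.fam_win p B C A U m₀ hp ε hε P hP)
  obtain ⟨n3, h3⟩ := Pool.Agent.H373R2.T7.ev_log' C 1
  refine ⟨n1 + n2 + n3 + 1, fun N hN x hx hxN f hf hb T hT hTb => ?_⟩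
  have h4 := h3 N (by omega)
  rw [one_mul] at h4
  have hN1 : (1 : ℝ) ≤ N := by exact_mod_cast (by omega : 1 ≤ N)
  have h5 : Real.log N ^ C ≤ N := by
    refine h4.trans ?_
    rw [Real.sqrt_le_left (by positivity)]
    nlinarith
  apply h1 N (by omega) (fun b => 0 < b → Even b → P b.toNat) _ x hx hxN f
    (fun m hm => (hf m hm).trans (by push_cast; nlinarith)) hb T hT
  · intro m hm
    obtain ⟨n, hn0, hn1, hn2, hn3⟩ := hTb m hm
    refine ⟨(n : ℤ), ?_, by simpa using hn2, ?_⟩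
    · have h6 := abs_le.1 (hf m (hT hm))
      have h7 := abs_le.1 hn2
      rw [Int.cast_natCast, abs_of_nonneg (Nat.cast_nonneg n)]
      push_cast
      nlinarith [h6.2, h7.2]
    · intro hcon
      have h8 := hcon (by exact_mod_cast hn0) (by exact_mod_cast hn1)
      rw [Int.toNat_natCast] at h8
      exact hn3 h8
  · apply crit1_of_fam
    intro ι _ v hv hE S hS
    apply h2 N (by omega) ι v (fun i => by
      have := (abs_le.1 (hv i)).2
      exact this) hE S
    intro i hi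
    have h6 := hS i hi
    push Not at h6
    exact h6

end Pool.Agent.U828.CV.At
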