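import Mathlib
import Pool.Agent.U828.CV.Fejer

/-! The additive energy of the integers near the values of arbitrary convex functions, with a power saving
(helper828). -/

set_option autoImplicit false

namespace Pool.Agent.U828.CV

open Finset Filter
open Pool.Agent.H469R2.NK (e norm_e e_add conj_e)

lemma bent_mul (x : ℕ) (f : ℕ → ℝ) (lam c : ℝ) (hc : 0 ≤ c) (h : Bent x f lam) : Bent x (fun m => c * f m) (c * lam) := by
  rcases h with h | h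
  · left
    intro m h1 h2
    have := mul_le_mul_of_nonneg_left (h m h1 h2) hc
    linarith
  · right
    intro m h1 h2
    have := mul_le_mul_of_nonneg_left (h m h1 h2) hc
    linarith

lemma bent_mono (x : ℕ) (f : ℕ → ℝ) (lam lam' : ℝ) (hl : lam' ≤ lam) (h : Bent x f lam) : Bent x f lam' := by
  rcases h with h | h
  · left
    intro m h1 h2
    exact hl.trans (h m h1 h2)
  · right
    intro m h1 h2
    have := h m h1 h2
    linarith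

/-- the energy of the integers near the values of a convex or concave function, away from the end points -/
theorem energy_pow (B : ℕ) (η : ℝ) (hη : 0 < η) : ∃ h : ℕ, 2 ≤ h ∧ ∀ ε : ℝ, 0 < ε → ε ≤ η → ε ≤ 1 / 4 →
    ∃ N₀ : ℕ, ∀ N : ℕ, N₀ ≤ N → ∀ x : ℕ, (N : ℝ) ^ (1 / 2 + η) ≤ x → ∀ f : ℕ → ℝ, (∀ m ∈ Icc 1 x, |f m| ≤ B * N) →
    Bent x f ((N : ℝ) ^ (1 - ε) / (x : ℝ) ^ 2) → ∀ w : ℕ, (x : ℝ) * (N : ℝ) ^ (-ε) ≤ w → 2 * w + 2 ≤ x → ∀ t : ℕ → ℤ,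
    (∀ m ∈ Ico (w + 1) (x - w), |(t m : ℝ) - f m| ≤ (N : ℝ) ^ ε) →
    (((Vec h (Ico (w + 1) (x - w)) ×ˢ Vec h (Ico (w + 1) (x - w))).filter
      (fun q => ∑ i, t (q.1 i) = ∑ i, t (q.2 i))).card : ℝ) * N ≤ (N : ℝ) ^ ((h + 4) * ε) * (x : ℝ) ^ (2 * h) := by
  classical
  obtain ⟨h, hh⟩ : ∃ h : ℕ, h = ⌈2 / η⌉₊ + 2 := ⟨_, rfl⟩
  have hηh : 2 ≤ η * h := by
    have h1 : 2 / η ≤ h := by
      rw [hh]
      push_cast
      linarith [Nat.le_ceil (2 / η)]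
    rw [div_le_iff₀ hη] at h1
    linarith
  refine ⟨h, by omega, fun ε hε hεη hε4 => ?_⟩
  obtain ⟨C, hC⟩ : ∃ C : ℝ, C = 1 + 2 * (4 ^ h * (1 + 2 * 24 ^ (2 * h))) := ⟨_, rfl⟩
  have hC0 : 0 < C := by rw [hC]; positivity
  have hev : ∀ᶠ N : ℕ in atTop, 8 * C ≤ (N : ℝ) ^ (2 * ε) ∧ 12 * h ≤ (N : ℝ) ^ ε ∧ (48 * B : ℝ) ^ (2 * h) ≤ N ∧ (1 : ℝ) ≤ N := by
    have h1 := ((tendsto_rpow_atTop (show 0 < 2 * ε by positivity)).comp
      (tendsto_natCast_atTop_atTop (R := ℝ))).eventually_ge_atTop (8 * C)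
    have h2 := ((tendsto_rpow_atTop hε).comp (tendsto_natCast_atTop_atTop (R := ℝ))).eventually_ge_atTop (12 * h : ℝ)
    have h3 := (tendsto_natCast_atTop_atTop (R := ℝ)).eventually_ge_atTop ((48 * B : ℝ) ^ (2 * h))
    have h4 := (tendsto_natCast_atTop_atTop (R := ℝ)).eventually_ge_atTop (1 : ℝ)
    filter_upwards [h1, h2, h3, h4] with N a1 a2 a3 a4
    exact ⟨a1, a2, a3, a4⟩
  obtain ⟨N₀, hN₀⟩ := eventually_atTop.1 hev
  refine ⟨N₀, fun N hN x hx f hf hb w hw hwx t ht => ?_⟩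
  obtain ⟨hN8, hN12, hN48, hN1⟩ := hN₀ N hN
  have hN0 : (0 : ℝ) < N := by linarith
  have hpow : ∀ a b : ℝ, a ≤ b → (N : ℝ) ^ a ≤ (N : ℝ) ^ b := fun a b hab => Real.rpow_le_rpow_of_exponent_le hN1 hab
  have hh0 : (0 : ℝ) < h := by exact_mod_cast (by omega : 0 < h)
  have hx0 : (0 : ℝ) < x := lt_of_lt_of_le (by positivity) hx
  have hw0 : (0 : ℝ) < w := lt_of_lt_of_le (by positivity) hw
  have hw1 : 1 ≤ w := by exact_mod_cast hw0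
  obtain ⟨K, hK⟩ : ∃ K : ℕ, K = ⌊(N : ℝ) ^ (1 - 2 * ε)⌋₊ := ⟨_, rfl⟩
  have hbig : 1 ≤ (N : ℝ) ^ (1 - 2 * ε) := Real.one_le_rpow hN1 (by linarith)
  have hK1 : 1 ≤ K := by rw [hK]; exact Nat.one_le_iff_ne_zero.2 (by rw [ne_eq, Nat.floor_eq_zero, not_lt]; exact hbig)
  have hK0 : (0 : ℝ) < K := by exact_mod_cast hK1
  have hKle : (K : ℝ) ≤ (N : ℝ) ^ (1 - 2 * ε) := by rw [hK]; exact Nat.floor_le (by positivity)
  have hKge : (N : ℝ) ^ (1 - 2 * ε) ≤ 2 * K := by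
    have h1 := Nat.lt_floor_add_one ((N : ℝ) ^ (1 - 2 * ε))
    rw [← hK] at h1
    have : (1 : ℝ) ≤ K := by exact_mod_cast hK1
    linarith
  have hKN : (K : ℝ) ≤ N := hKle.trans (by
    calc (N : ℝ) ^ (1 - 2 * ε) ≤ (N : ℝ) ^ (1 : ℝ) := hpow _ _ (by linarith)
      _ = N := Real.rpow_one _)
  have hx2 : (N : ℝ) ^ (1 + 2 * η) ≤ (x : ℝ) ^ 2 := by
    calc (N : ℝ) ^ (1 + 2 * η) = ((N : ℝ) ^ (1 / 2 + η)) ^ 2 := by
          rw [← Real.rpow_natCast ((N : ℝ) ^ (1 / 2 + η)) 2, ← Real.rpow_mul hN0.le]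
          congr 1
          push_cast
          ring
      _ ≤ (x : ℝ) ^ 2 := pow_le_pow_left₀ (by positivity) hx 2
  have hNx2 : (N : ℝ) ≤ (x : ℝ) ^ 2 := by
    calc (N : ℝ) = (N : ℝ) ^ (1 : ℝ) := (Real.rpow_one _).symm
      _ ≤ _ := hpow _ _ (by linarith)
      _ ≤ _ := hx2
  obtain ⟨J, hJ⟩ : ∃ J, J = Ico (w + 1) (x - w) := ⟨_, rfl⟩
  rw [← hJ] at ht ⊢
  have hJx : (J.card : ℝ) ≤ x := by
    rw [hJ, Nat.card_Ico]
    exact_mod_cast (by omega : x - w - (w + 1) ≤ x)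
  obtain ⟨A, hA⟩ : ∃ A, A = 48 * B * (x * (N : ℝ) ^ (ε / 2 - η)) := ⟨_, rfl⟩
  obtain ⟨D, hD⟩ : ∃ D, D = 24 * (x * (N : ℝ) ^ (ε / 2)) := ⟨_, rfl⟩
  have hA0 : 0 ≤ A := by rw [hA]; positivity
  have hD0 : 0 ≤ D := by rw [hD]; positivity
  -- the exponential sums
  have hT : ∀ j : ℕ, 1 ≤ j → j < K → ‖∑ m ∈ J, e ((j * (1 / (N : ℝ))) * f m)‖ ≤ A + D / √j := by
    intro j hj1 hjK
    have hj0 : (0 : ℝ) < j := by exact_mod_cast hj1
    have hjK' : (j : ℝ) ≤ K := by exact_mod_cast hjK.le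
    obtain ⟨c, hc⟩ : ∃ c, c = (j : ℝ) * (1 / (N : ℝ)) := ⟨_, rfl⟩
    have hc0 : 0 < c := by rw [hc]; positivity
    obtain ⟨lam, hlam⟩ : ∃ lam, lam = (j : ℝ) * (N : ℝ) ^ (-ε) / (x : ℝ) ^ 2 := ⟨_, rfl⟩
    have hlam0 : 0 < lam := by rw [hlam]; positivity
    have hlamc : lam = c * ((N : ℝ) ^ (1 - ε) / (x : ℝ) ^ 2) := by
      rw [hlam, hc, show (1 - ε) = 1 + -ε by ring, Real.rpow_add hN0, Real.rpow_one]
      field_simp
    have hlam1 : lam ≤ 1 := by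
      rw [hlam, div_le_one (by positivity)]
      calc (j : ℝ) * (N : ℝ) ^ (-ε) ≤ j * 1 := by
            apply mul_le_mul_of_nonneg_left _ hj0.le
            rw [← Real.rpow_zero (N : ℝ)]
            exact hpow _ _ (by linarith)
        _ ≤ (x : ℝ) ^ 2 := by linarith
    have h1 := cut_sum x w hw1 hwx (fun m => c * f m) lam (j * B) hlam0 hlam1 (by
      intro m hm
      rw [abs_mul, abs_of_pos hc0]
      calc c * |f m| ≤ c * (B * N) := mul_le_mul_of_nonneg_left (hf m hm) hc0.le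
        _ = j * B := by rw [hc]; field_simp) (by
      rw [hlamc]
      exact bent_mul x f _ c hc0.le hb)
    rw [← hJ] at h1
    rw [← hc]
    refine h1.trans ?_
    -- the size
    have hsj : 0 < √(j : ℝ) := Real.sqrt_pos.2 hj0
    have hsj2 : √(j : ℝ) * √(j : ℝ) = j := Real.mul_self_sqrt hj0.le
    have hslam : √lam = √(j : ℝ) * (N : ℝ) ^ (-(ε / 2)) / x := by
      rw [hlam, Real.sqrt_div' _ (by positivity), Real.sqrt_sq hx0.le, Real.sqrt_mul hj0.le]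
      congr 2
      rw [Real.sqrt_eq_rpow, ← Real.rpow_mul hN0.le]
      congr 1
      ring
    have hslam0 : 0 < √lam := Real.sqrt_pos.2 hlam0
    have hNe : (N : ℝ) ^ (-(ε / 2)) * (N : ℝ) ^ (ε / 2) = 1 := by
      rw [← Real.rpow_add hN0]
      simp
    rw [div_le_iff₀ hslam0]
    have hjw : √(j : ℝ) ≤ w * (N : ℝ) ^ (-η) * 1 := by
      have h2 : √(j : ℝ) ≤ (N : ℝ) ^ (1 / 2 - ε) := by
        rw [Real.sqrt_le_left (by positivity), ← Real.rpow_natCast, ← Real.rpow_mul hN0.le]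
        refine (hjK'.trans hKle).trans (le_of_eq ?_)
        congr 1
        push_cast
        ring
      calc √(j : ℝ) ≤ (N : ℝ) ^ (1 / 2 - ε) := h2
        _ = (N : ℝ) ^ (1 / 2 + η) * (N : ℝ) ^ (-ε) * (N : ℝ) ^ (-η) := by
            rw [← Real.rpow_add hN0, ← Real.rpow_add hN0]
            congr 1
            ring
        _ ≤ x * (N : ℝ) ^ (-ε) * (N : ℝ) ^ (-η) := by gcongr
        _ ≤ w * (N : ℝ) ^ (-η) := by gcongr
        _ = _ := by ring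
    have h3 : (A + D / √(j : ℝ)) * √lam = 48 * B * (√(j : ℝ) * (N : ℝ) ^ (-η)) + 24 := by
      rw [hslam, hA, hD]
      have e1 : (N : ℝ) ^ (ε / 2 - η) = (N : ℝ) ^ (ε / 2) * (N : ℝ) ^ (-η) := by
        rw [← Real.rpow_add hN0]
        congr 1
      rw [e1]
      have hx0' : (x : ℝ) ≠ 0 := hx0.ne'
      have hsj' : √(j : ℝ) ≠ 0 := hsj.ne'
      have e2 : (48 * B * (x * ((N : ℝ) ^ (ε / 2) * (N : ℝ) ^ (-η))) + 24 * (x * (N : ℝ) ^ (ε / 2)) / √(j : ℝ)) *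
          (√(j : ℝ) * (N : ℝ) ^ (-(ε / 2)) / x) =
          (48 * B * (√(j : ℝ) * (N : ℝ) ^ (-η)) + 24) * ((N : ℝ) ^ (-(ε / 2)) * (N : ℝ) ^ (ε / 2)) := by
        field_simp
      rw [e2, hNe, mul_one]
    rw [h3]
    have h4 : (j : ℝ) * B / w ≤ B * (√(j : ℝ) * (N : ℝ) ^ (-η)) := by
      rw [div_le_iff₀ hw0]
      calc (j : ℝ) * B = B * (√(j : ℝ) * √(j : ℝ)) := by rw [hsj2]; ring
        _ ≤ B * (√(j : ℝ) * (w * (N : ℝ) ^ (-η) * 1)) := by gcongr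
        _ = _ := by ring
    have h5 : 4 * ((j : ℝ) * B) / w = 4 * ((j : ℝ) * B / w) := by ring
    rw [h5]
    linarith
  have hmain := count_bound h K (by omega) hK1 J f (1 / (N : ℝ)) (2 * h * (N : ℝ) ^ ε) A D (by positivity) (by
    have h1 : 1 / (N : ℝ) * (2 * h * (N : ℝ) ^ ε) * K ≤ 1 / (N : ℝ) * (2 * h * (N : ℝ) ^ ε) * (N : ℝ) ^ (1 - 2 * ε) :=
      mul_le_mul_of_nonneg_left hKle (by positivity)
    refine h1.trans ?_
    have e1 : 1 / (N : ℝ) * (2 * h * (N : ℝ) ^ ε) * (N : ℝ) ^ (1 - 2 * ε) = 2 * h * (N : ℝ) ^ (-ε) := by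
      have e2 : (N : ℝ) ^ ε * (N : ℝ) ^ (1 - 2 * ε) = N * (N : ℝ) ^ (-ε) := by
        nth_rw 3 [← Real.rpow_one (N : ℝ)]
        rw [← Real.rpow_add hN0, ← Real.rpow_add hN0]
        congr 1
        ring
      calc _ = 1 / (N : ℝ) * (2 * h) * ((N : ℝ) ^ ε * (N : ℝ) ^ (1 - 2 * ε)) := by ring
        _ = _ := by rw [e2]; field_simp
    rw [e1, Real.rpow_neg hN0.le, ← div_eq_mul_inv, div_le_iff₀ (by positivity)]
    linarith) hA0 hD0 hT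
    ((Vec h J ×ˢ Vec h J).filter (fun q => ∑ i, t (q.1 i) = ∑ i, t (q.2 i))) (filter_subset _ _) (by
    intro q hq
    obtain ⟨hq1, hq2⟩ := mem_filter.1 hq
    rw [mem_product, Fintype.mem_piFinset, Fintype.mem_piFinset] at hq1
    have h1 : ∑ i, f (q.1 i) - ∑ i, f (q.2 i) =
        ∑ i, (((t (q.2 i) : ℤ) : ℝ) - f (q.2 i)) - ∑ i, (((t (q.1 i) : ℤ) : ℝ) - f (q.1 i)) := by
      rw [sum_sub_distrib, sum_sub_distrib]
      have h2 : ∑ i, ((t (q.1 i) : ℤ) : ℝ) = ∑ i, ((t (q.2 i) : ℤ) : ℝ) := by exact_mod_cast hq2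
      rw [h2]
      ring
    have h3 : ∀ g : Fin h → ℕ, (∀ i, g i ∈ J) → |∑ i, (((t (g i) : ℤ) : ℝ) - f (g i))| ≤ h * (N : ℝ) ^ ε := by
      intro g hg
      refine (abs_sum_le_sum_abs _ _).trans ?_
      calc ∑ i, |((t (g i) : ℤ) : ℝ) - f (g i)| ≤ ∑ _i : Fin h, (N : ℝ) ^ ε := sum_le_sum fun i _ => ht _ (hg i)
        _ = _ := by rw [sum_const, card_univ, Fintype.card_fin, nsmul_eq_mul]
    rw [h1]
    refine (abs_sub _ _).trans ?_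
    linarith [h3 q.1 hq1.1, h3 q.2 hq1.2])
  -- conclusion
  obtain ⟨X, hX⟩ : ∃ X, X = (x : ℝ) ^ (2 * h) := ⟨_, rfl⟩
  have hX0 : 0 < X := by rw [hX]; positivity
  have hJX : (J.card : ℝ) ^ (2 * h) ≤ X := by rw [hX]; exact pow_le_pow_left₀ (Nat.cast_nonneg _) hJx _
  have hNe1 : 1 ≤ (N : ℝ) ^ (ε * h) := Real.one_le_rpow hN1 (by positivity)
  have hAX : K * A ^ (2 * h) ≤ X := by
    have e1 : A ^ (2 * h) = (48 * B : ℝ) ^ (2 * h) * (X * (N : ℝ) ^ ((ε - 2 * η) * h)) := by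
      rw [hA, mul_pow (48 * (B : ℝ)), mul_pow (x : ℝ), hX, ← Real.rpow_natCast ((N : ℝ) ^ (ε / 2 - η)) (2 * h),
        ← Real.rpow_mul hN0.le]
      congr 3
      push_cast
      ring
    have e2 : (N : ℝ) ^ ((ε - 2 * η) * h) ≤ (N : ℝ) ^ (-2 : ℝ) := by
      apply hpow
      have h1 : (ε - 2 * η) * h ≤ (-η) * h := mul_le_mul_of_nonneg_right (by linarith) hh0.le
      linarith
    have e3 : (N : ℝ) * N * (N : ℝ) ^ (-2 : ℝ) = 1 := by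
      rw [Real.rpow_neg hN0.le]
      have : (N : ℝ) ^ (2 : ℝ) = N * N := by rw [Real.rpow_two]; ring
      rw [this]
      field_simp
    rw [e1]
    calc K * ((48 * B : ℝ) ^ (2 * h) * (X * (N : ℝ) ^ ((ε - 2 * η) * h))) ≤ N * (N * (X * (N : ℝ) ^ (-2 : ℝ))) := by
          gcongr
      _ = X * (N * N * (N : ℝ) ^ (-2 : ℝ)) := by ring
      _ = X := by rw [e3, mul_one]
  have hDX : D ^ (2 * h) = 24 ^ (2 * h) * (X * (N : ℝ) ^ (ε * h)) := by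
    rw [hD, mul_pow, mul_pow, hX, ← Real.rpow_natCast ((N : ℝ) ^ (ε / 2)) (2 * h), ← Real.rpow_mul hN0.le]
    congr 3
    push_cast
    ring
  have hbr : (J.card : ℝ) ^ (2 * h) + 2 * (4 ^ h * (K * A ^ (2 * h) + 2 * D ^ (2 * h))) ≤ C * (N : ℝ) ^ (ε * h) * X := by
    rw [hDX]
    calc (J.card : ℝ) ^ (2 * h) + 2 * (4 ^ h * (K * A ^ (2 * h) + 2 * (24 ^ (2 * h) * (X * (N : ℝ) ^ (ε * h)))))
        ≤ X * (N : ℝ) ^ (ε * h) + 2 * (4 ^ h * (X * (N : ℝ) ^ (ε * h) + 2 * (24 ^ (2 * h) * (X * (N : ℝ) ^ (ε * h))))) := by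
          have e1 : X ≤ X * (N : ℝ) ^ (ε * h) := le_mul_of_one_le_right hX0.le hNe1
          have e4 : (4 : ℝ) ^ h * (K * A ^ (2 * h) + 2 * (24 ^ (2 * h) * (X * (N : ℝ) ^ (ε * h)))) ≤
              4 ^ h * (X * (N : ℝ) ^ (ε * h) + 2 * (24 ^ (2 * h) * (X * (N : ℝ) ^ (ε * h)))) := by
            apply mul_le_mul_of_nonneg_left _ (by positivity)
            linarith
          linarith
      _ = C * (N : ℝ) ^ (ε * h) * X := by rw [hC]; ring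
  have h4K : 4 / (K : ℝ) ≤ 8 * (N : ℝ) ^ (2 * ε) / N := by
    rw [div_le_div_iff₀ hK0 hN0]
    have e1 : (N : ℝ) = (N : ℝ) ^ (2 * ε) * (N : ℝ) ^ (1 - 2 * ε) := by
      rw [← Real.rpow_add hN0]
      have : 2 * ε + (1 - 2 * ε) = 1 := by ring
      rw [this, Real.rpow_one]
    have e2 : (N : ℝ) ^ (2 * ε) * (N : ℝ) ^ (1 - 2 * ε) ≤ (N : ℝ) ^ (2 * ε) * (2 * K) :=
      mul_le_mul_of_nonneg_left hKge (by positivity)
    calc 4 * (N : ℝ) = 4 * ((N : ℝ) ^ (2 * ε) * (N : ℝ) ^ (1 - 2 * ε)) := by rw [← e1]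
      _ ≤ 4 * ((N : ℝ) ^ (2 * ε) * (2 * K)) := by linarith
      _ = 8 * (N : ℝ) ^ (2 * ε) * K := by ring
  rw [← hX]
  calc (((Vec h J ×ˢ Vec h J).filter (fun q => ∑ i, t (q.1 i) = ∑ i, t (q.2 i))).card : ℝ) * N
      ≤ (4 / K * (C * (N : ℝ) ^ (ε * h) * X)) * N := by
        apply mul_le_mul_of_nonneg_right _ hN0.le
        exact hmain.trans (mul_le_mul_of_nonneg_left hbr (by positivity))
    _ ≤ (8 * (N : ℝ) ^ (2 * ε) / N * (C * (N : ℝ) ^ (ε * h) * X)) * N := by gcongr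
    _ = (8 * C) * ((N : ℝ) ^ (2 * ε) * (N : ℝ) ^ (ε * h)) * X := by field_simp
    _ ≤ (N : ℝ) ^ (2 * ε) * ((N : ℝ) ^ (2 * ε) * (N : ℝ) ^ (ε * h)) * X := by gcongr
    _ = (N : ℝ) ^ ((h + 4) * ε) * X := by
        rw [← Real.rpow_add hN0, ← Real.rpow_add hN0]
        congr 2
        ring

end Pool.Agent.U828.CV
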