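import Mathlib
import Pool.Agent.U828.CV.Pow

/-! All the integers near almost all values of an arbitrary convex function, with a power saving (helper828). -/

set_option autoImplicit false

namespace Pool.Agent.U828.CV

open Finset Filter

/-- the additive energy of order `p` of a finite family of integers -/
noncomputable def En (p : ℕ) {ι : Type} (v : ι → ℤ) : ℕ :=
  Nat.card {q : (Fin p → ι) × (Fin p → ι) // ∑ j, v (q.1 j) = ∑ j, v (q.2 j)}

/-- almost all members of the finite families of small additive energy satisfy `P`, with a power saving -/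
def CritP (B h : ℕ) (θ : ℝ) (N : ℕ) (P : ℤ → Prop) : Prop :=
  ∀ (ι : Type) [Fintype ι] (v : ι → ℤ), (∀ i, |v i| ≤ (B : ℤ) * (N : ℤ)) →
    (En h v : ℝ) * N ≤ (N : ℝ) ^ θ * (Fintype.card ι : ℝ) ^ (2 * h) →
    ∀ S : Finset ι, (∀ i ∈ S, ¬ P (v i)) → (S.card : ℝ) ≤ (N : ℝ) ^ (-θ) * Fintype.card ι

/-- the elements of a finite set -/
abbrev Jx (J : Finset ℕ) : Type := {m : ℕ // m ∈ J}

noncomputable instance instJx (J : Finset ℕ) : Fintype (Jx J) := (inferInstance : Fintype {m : ℕ // m ∈ J})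

lemma En_le_card (p : ℕ) (J : Finset ℕ) (t : ℕ → ℤ) :
    En p (fun i : Jx J => t i.1) ≤
      ((Vec p J ×ˢ Vec p J).filter (fun q => ∑ i, t (q.1 i) = ∑ i, t (q.2 i))).card := by
  classical
  unfold En
  rw [Nat.card_eq_fintype_card, Fintype.card_subtype]
  apply card_le_card_of_injOn (fun q => ((fun j => (q.1 j).1), (fun j => (q.2 j).1)))
  · intro q hq
    rw [mem_coe, mem_filter] at hq
    rw [mem_coe, mem_filter, mem_product, Fintype.mem_piFinset, Fintype.mem_piFinset]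
    exact ⟨⟨fun j => (q.1 j).2, fun j => (q.2 j).2⟩, hq.2⟩
  · intro q _ q' _ h
    simp only [Prod.mk.injEq] at h
    apply Prod.ext
    · funext j
      exact Subtype.ext (congrFun h.1 j)
    · funext j
      exact Subtype.ext (congrFun h.2 j)

theorem near_pow (B : ℕ) (η : ℝ) (hη : 0 < η) : ∃ h : ℕ, 2 ≤ h ∧ ∀ θ : ℝ, 0 < θ → ∃ δ : ℝ, 0 < δ ∧ δ ≤ 1 / 8 ∧
    ∃ N₀ : ℕ, ∀ N : ℕ, N₀ ≤ N → ∀ P : ℤ → Prop, CritP (B + 1) h θ N P →
    ∀ x : ℕ, (N : ℝ) ^ (1 / 2 + η) ≤ x → ∀ f : ℕ → ℝ, (∀ m ∈ Icc 1 x, |f m| ≤ B * N) →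
    Bent x f ((N : ℝ) ^ (1 - δ) / (x : ℝ) ^ 2) →
    ∀ T ⊆ Icc 1 x, (∀ m ∈ T, ∃ b : ℤ, |(b : ℝ) - f m| ≤ (N : ℝ) ^ δ ∧ ¬ P b) →
    (T.card : ℝ) ≤ x * (N : ℝ) ^ (-δ) := by
  classical
  obtain ⟨h, hh2, hh⟩ := energy_pow B η hη
  refine ⟨h, hh2, fun θ hθ => ?_⟩
  have hh0 : (0 : ℝ) < h := by exact_mod_cast (by omega : 0 < h)
  obtain ⟨ε, hε0, hεη, hε4, hεθ⟩ : ∃ ε : ℝ, 0 < ε ∧ ε ≤ η ∧ ε ≤ 1 / 4 ∧ (h + 5) * ε ≤ θ := by
    refine ⟨min (min η (1 / 4)) (θ / (h + 5)), by positivity, ?_, ?_, ?_⟩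
    · exact (min_le_left _ _).trans (min_le_left _ _)
    · exact (min_le_left _ _).trans (min_le_right _ _)
    · calc (h + 5) * min (min η (1 / 4)) (θ / (h + 5)) ≤ (h + 5) * (θ / (h + 5)) :=
            mul_le_mul_of_nonneg_left (min_le_right _ _) (by positivity)
        _ = θ := by field_simp
  obtain ⟨N1, h1⟩ := hh ε hε0 hεη hε4
  obtain ⟨δ, hδ⟩ : ∃ δ, δ = ε / 2 := ⟨_, rfl⟩
  have hδ0 : 0 < δ := by rw [hδ]; positivity
  have hεδ : ε = 2 * δ := by rw [hδ]; ring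
  refine ⟨δ, hδ0, by linarith, ?_⟩
  have hev : ∀ᶠ N : ℕ in atTop, 20 ≤ (N : ℝ) ^ δ ∧ (4 : ℝ) ^ h ≤ (N : ℝ) ^ ε ∧ (16 : ℝ) ≤ N := by
    have h2 := ((tendsto_rpow_atTop hδ0).comp (tendsto_natCast_atTop_atTop (R := ℝ))).eventually_ge_atTop (20 : ℝ)
    have h3 := ((tendsto_rpow_atTop hε0).comp (tendsto_natCast_atTop_atTop (R := ℝ))).eventually_ge_atTop ((4 : ℝ) ^ h)
    have h4 := (tendsto_natCast_atTop_atTop (R := ℝ)).eventually_ge_atTop (16 : ℝ)
    filter_upwards [h2, h3, h4] with N a1 a2 a3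
    exact ⟨a1, a2, a3⟩
  obtain ⟨N2, h2⟩ := eventually_atTop.1 hev
  refine ⟨N1 + N2, fun N hN P hP x hx f hf hb T hT hTb => ?_⟩
  obtain ⟨hN20, hN4, hN16⟩ := h2 N (by omega)
  have hN1 : (1 : ℝ) ≤ N := by linarith
  have hN0 : (0 : ℝ) < N := by linarith
  have hpow : ∀ a b : ℝ, a ≤ b → (N : ℝ) ^ a ≤ (N : ℝ) ^ b := fun a b hab => Real.rpow_le_rpow_of_exponent_le hN1 hab
  obtain ⟨L, hL⟩ : ∃ L, L = (N : ℝ) ^ δ := ⟨_, rfl⟩
  have hL20 : 20 ≤ L := by rw [hL]; exact hN20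
  have hLε : (N : ℝ) ^ ε = L * L := by rw [hεδ, hL, ← Real.rpow_add hN0]; congr 1; ring
  have hLnδ : (N : ℝ) ^ (-δ) = 1 / L := by rw [Real.rpow_neg hN0.le, hL, one_div]
  have hLnε : (N : ℝ) ^ (-ε) = 1 / (L * L) := by rw [Real.rpow_neg hN0.le, hLε, one_div]
  have hL0 : 0 < L := by linarith
  have hx0 : (0 : ℝ) < x := lt_of_lt_of_le (by positivity) hx
  -- sizes
  have hxε : 4 ≤ (x : ℝ) * (N : ℝ) ^ (-ε) := by
    calc (4 : ℝ) = (16 : ℝ) ^ (1 / 2 : ℝ) := by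
          rw [show (16 : ℝ) = 4 ^ 2 by norm_num, ← Real.sqrt_eq_rpow, Real.sqrt_sq (by norm_num)]
      _ ≤ (N : ℝ) ^ (1 / 2 : ℝ) := Real.rpow_le_rpow (by norm_num) hN16 (by norm_num)
      _ ≤ (N : ℝ) ^ ((1 / 2 + η) + (-ε)) := hpow _ _ (by linarith)
      _ = (N : ℝ) ^ (1 / 2 + η) * (N : ℝ) ^ (-ε) := Real.rpow_add hN0 _ _
      _ ≤ x * (N : ℝ) ^ (-ε) := by gcongr
  obtain ⟨w, hw⟩ : ∃ w : ℕ, w = ⌈(x : ℝ) * (N : ℝ) ^ (-ε)⌉₊ := ⟨_, rfl⟩
  have hw1 : (x : ℝ) * (N : ℝ) ^ (-ε) ≤ w := by rw [hw]; exact Nat.le_ceil _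
  have hw2 : (w : ℝ) ≤ x * (N : ℝ) ^ (-ε) + 1 := by rw [hw]; exact (Nat.ceil_lt_add_one (by positivity)).le
  have hLL : 400 ≤ L * L := by nlinarith
  have hxL : (x : ℝ) * (N : ℝ) ^ (-ε) * 400 ≤ x := by
    rw [hLnε, mul_one_div, div_mul_eq_mul_div, div_le_iff₀ (by positivity)]
    exact mul_le_mul_of_nonneg_left hLL hx0.le
  have hwx : 2 * w + 2 ≤ x := by
    have : (2 : ℝ) * w + 2 ≤ x := by linarith
    exact_mod_cast this
  obtain ⟨J, hJ⟩ : ∃ J, J = Ico (w + 1) (x - w) := ⟨_, rfl⟩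
  have hJc : J.card = x - w - (w + 1) := by rw [hJ, Nat.card_Ico]
  have hJc' : (J.card : ℝ) = x - 2 * w - 1 := by
    rw [hJc, Nat.cast_sub (by omega), Nat.cast_sub (by omega)]
    push_cast
    ring
  have hJx : (J.card : ℝ) ≤ x := by
    rw [hJc']
    have : (0 : ℝ) ≤ w := Nat.cast_nonneg _
    linarith
  have hJx2 : (x : ℝ) ≤ 2 * J.card := by rw [hJc']; linarith
  -- the energies
  have hE : ∀ t : ℕ → ℤ, (∀ m ∈ J, |(t m : ℝ) - f m| ≤ (N : ℝ) ^ ε) → ∀ S ⊆ J, (∀ m ∈ S, ¬ P (t m)) →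
      (S.card : ℝ) ≤ (N : ℝ) ^ (-θ) * x := by
    intro t ht S hS hSP
    have h3 := h1 N (by omega) x hx f hf (bent_mono x f _ _ (by
      apply div_le_div_of_nonneg_right _ (by positivity)
      exact hpow _ _ (by linarith)) hb) w hw1 hwx t (by rw [← hJ]; exact ht)
    rw [← hJ] at h3
    have hNeL : L + 3 ≤ (N : ℝ) ^ ε := by rw [hLε]; nlinarith
    have hNε : (N : ℝ) ^ ε ≤ N := by
      calc (N : ℝ) ^ ε ≤ (N : ℝ) ^ (1 : ℝ) := hpow _ _ (by linarith)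
        _ = N := Real.rpow_one _
    have h4 := hP (Jx J) (fun i => t i.1) (by
      intro i
      have hi : i.1 ∈ J := i.2
      have hi' : i.1 ∈ Icc 1 x := by
        obtain ⟨m, hm⟩ := i
        have hm' := hm
        rw [hJ, mem_Ico] at hm'
        rw [mem_Icc]
        show 1 ≤ m ∧ m ≤ x
        omega
      have h5 := abs_le.1 (ht i.1 hi)
      have h6 := abs_le.1 (hf i.1 hi')
      have h7 : |(t i.1 : ℝ)| ≤ (B + 1) * N := by
        rw [abs_le]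
        constructor <;> nlinarith [h5.1, h5.2, h6.1, h6.2]
      have h8 : ((|t i.1| : ℤ) : ℝ) ≤ (((((B + 1 : ℕ) : ℤ)) * (N : ℤ) : ℤ) : ℝ) := by
        push_cast
        exact h7
      exact_mod_cast h8) (by
      rw [Fintype.card_coe]
      have h5 : (En h (fun i : Jx J => t i.1) : ℝ) ≤
          (((Vec h J ×ˢ Vec h J).filter (fun q => ∑ i, t (q.1 i) = ∑ i, t (q.2 i))).card : ℝ) := by
        exact_mod_cast En_le_card h J t
      calc (En h (fun i : Jx J => t i.1) : ℝ) * N ≤ _ := mul_le_mul_of_nonneg_right h5 hN0.le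
        _ ≤ (N : ℝ) ^ ((h + 4) * ε) * (x : ℝ) ^ (2 * h) := h3
        _ ≤ (N : ℝ) ^ ((h + 4) * ε) * (2 * J.card : ℝ) ^ (2 * h) := by gcongr
        _ = (N : ℝ) ^ ((h + 4) * ε) * (4 : ℝ) ^ h * (J.card : ℝ) ^ (2 * h) := by
            rw [mul_pow, pow_mul (2 : ℝ) 2 h]
            norm_num
            ring
        _ ≤ (N : ℝ) ^ ((h + 4) * ε) * (N : ℝ) ^ ε * (J.card : ℝ) ^ (2 * h) :=
            mul_le_mul_of_nonneg_right (mul_le_mul_of_nonneg_left hN4 (Real.rpow_nonneg hN0.le _))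
              (pow_nonneg (Nat.cast_nonneg _) _)
        _ = (N : ℝ) ^ ((h + 5) * ε) * (J.card : ℝ) ^ (2 * h) := by
            rw [← Real.rpow_add hN0]
            congr 2
            ring
        _ ≤ (N : ℝ) ^ θ * (J.card : ℝ) ^ (2 * h) :=
            mul_le_mul_of_nonneg_right (hpow _ _ hεθ) (pow_nonneg (Nat.cast_nonneg _) _))
      (S.subtype (fun m => m ∈ J)) (by
        intro i hi
        exact hSP i.1 (mem_subtype.1 hi))
    rw [Fintype.card_coe, card_subtype, filter_true_of_mem hS] at h4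
    exact h4.trans (mul_le_mul_of_nonneg_left hJx (by positivity))
  -- the cover
  obtain ⟨E, hEd⟩ : ∃ E : ℕ, E = ⌈L⌉₊ := ⟨_, rfl⟩
  have hE1 : L ≤ E := by rw [hEd]; exact Nat.le_ceil _
  have hE2 : (E : ℝ) ≤ L + 1 := by rw [hEd]; exact (Nat.ceil_lt_add_one hL0.le).le
  have hcov : T ⊆ (Icc 1 w ∪ Icc (x - w) x) ∪
      (range (2 * E + 2)).biUnion (fun e => J.filter (fun m => ¬ P (⌊f m⌋ + ((e : ℤ) - E)))) := by
    intro m hm
    have hmx := mem_Icc.1 (hT hm)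
    rw [mem_union, mem_union, mem_Icc, mem_Icc]
    by_cases hmJ : m ∈ J
    · right
      obtain ⟨b, hb1, hb2⟩ := hTb m hm
      rw [← hL] at hb1
      rw [mem_biUnion]
      have h3 := abs_le.1 hb1
      have h4 := Int.floor_le (f m)
      have h5 := Int.lt_floor_add_one (f m)
      have h6 : -(E : ℤ) ≤ b - ⌊f m⌋ := by
        have : (-(E : ℤ) : ℝ) ≤ ((b - ⌊f m⌋ : ℤ) : ℝ) := by push_cast; linarith [h3.1]
        exact_mod_cast this
      have h7 : b - ⌊f m⌋ ≤ E + 1 := by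
        have : ((b - ⌊f m⌋ : ℤ) : ℝ) ≤ ((E + 1 : ℤ) : ℝ) := by push_cast; linarith [h3.2]
        exact_mod_cast this
      refine ⟨(b - ⌊f m⌋ + E).toNat, ?_, ?_⟩
      · rw [mem_range]
        omega
      · rw [mem_filter]
        refine ⟨hmJ, ?_⟩
        have e1 : (((b - ⌊f m⌋ + E).toNat : ℕ) : ℤ) = b - ⌊f m⌋ + E := Int.toNat_of_nonneg (by omega)
        rw [e1]
        have e2 : ⌊f m⌋ + (b - ⌊f m⌋ + E - E) = b := by ring
        rw [e2]
        exact hb2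
    · left
      rw [hJ, mem_Ico] at hmJ
      omega
  have hsm : ∀ e ∈ range (2 * E + 2), ((J.filter (fun m => ¬ P (⌊f m⌋ + ((e : ℤ) - E)))).card : ℝ) ≤
      (N : ℝ) ^ (-θ) * x := by
    intro e he
    rw [mem_range] at he
    apply hE (fun m => ⌊f m⌋ + ((e : ℤ) - E)) _ _ (filter_subset _ _)
    · intro m hm
      exact (mem_filter.1 hm).2
    · intro m _
      have h4 := Int.floor_le (f m)
      have h5 := Int.lt_floor_add_one (f m)
      have he0 : (0 : ℝ) ≤ e := Nat.cast_nonneg _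
      have he1 : (e : ℝ) ≤ 2 * E + 1 := by exact_mod_cast (by omega : e ≤ 2 * E + 1)
      have hNeL : L + 3 ≤ (N : ℝ) ^ ε := by rw [hLε]; nlinarith
      push_cast
      rw [abs_le]
      constructor <;> linarith
  have h3 : (T.card : ℝ) ≤ (w + (w + 1)) + (2 * E + 2) * ((N : ℝ) ^ (-θ) * x) := by
    have c1 := (card_le_card hcov).trans (card_union_le _ _)
    have c2 : (Icc 1 w ∪ Icc (x - w) x).card ≤ w + (w + 1) := by
      refine (card_union_le _ _).trans ?_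
      rw [Nat.card_Icc, Nat.card_Icc]
      omega
    have c3 : (((range (2 * E + 2)).biUnion (fun e => J.filter (fun m => ¬ P (⌊f m⌋ + ((e : ℤ) - E))))).card : ℝ) ≤
        (2 * E + 2) * ((N : ℝ) ^ (-θ) * x) := by
      calc (((range (2 * E + 2)).biUnion (fun e => J.filter (fun m => ¬ P (⌊f m⌋ + ((e : ℤ) - E))))).card : ℝ)
          ≤ ∑ e ∈ range (2 * E + 2), ((J.filter (fun m => ¬ P (⌊f m⌋ + ((e : ℤ) - E)))).card : ℝ) := by
            exact_mod_cast card_biUnion_le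
        _ ≤ ∑ _e ∈ range (2 * E + 2), (N : ℝ) ^ (-θ) * x := sum_le_sum hsm
        _ = _ := by rw [sum_const, card_range, nsmul_eq_mul]; push_cast; ring
    calc (T.card : ℝ) ≤ (((Icc 1 w ∪ Icc (x - w) x).card +
          ((range (2 * E + 2)).biUnion (fun e => J.filter (fun m => ¬ P (⌊f m⌋ + ((e : ℤ) - E))))).card : ℕ) : ℝ) := by
          exact_mod_cast c1
      _ ≤ _ := by
          push_cast
          have c2' : (((Icc 1 w ∪ Icc (x - w) x).card : ℕ) : ℝ) ≤ w + (w + 1) := by exact_mod_cast c2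
          linarith
  have hθL : (N : ℝ) ^ (-θ) ≤ 1 / (L * L * L) := by
    have e1 : 1 / (L * L * L) = (N : ℝ) ^ (-(3 * δ)) := by
      rw [Real.rpow_neg hN0.le, one_div]
      congr 1
      rw [hL, ← Real.rpow_add hN0, ← Real.rpow_add hN0]
      congr 1
      ring
    rw [e1]
    apply hpow
    have : (7 : ℝ) ≤ h + 5 := by
      have : (2 : ℝ) ≤ h := by exact_mod_cast hh2
      linarith
    nlinarith
  rw [hLnδ, mul_one_div, le_div_iff₀ hL0]
  have h4 : (2 * E + 2) * ((N : ℝ) ^ (-θ) * x) ≤ 4 * (x / (L * L)) := by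
    calc (2 * E + 2) * ((N : ℝ) ^ (-θ) * x) ≤ (4 * L) * (1 / (L * L * L) * x) := by
          apply mul_le_mul _ (mul_le_mul_of_nonneg_right hθL hx0.le) (by positivity) (by positivity)
          linarith
      _ = 4 * (x / (L * L)) := by field_simp
  have h5 : (w : ℝ) + (w + 1) ≤ 3 * (x / (L * L)) := by
    have e1 : (x : ℝ) * (N : ℝ) ^ (-ε) = x / (L * L) := by rw [hLnε, mul_one_div]
    rw [← e1]
    linarith
  have h6 : (T.card : ℝ) ≤ 7 * (x / (L * L)) := by linarith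
  calc (T.card : ℝ) * L ≤ 7 * (x / (L * L)) * L := mul_le_mul_of_nonneg_right h6 hL0.le
    _ = x * (7 / L) := by field_simp
    _ ≤ x * 1 := by
        apply mul_le_mul_of_nonneg_left _ hx0.le
        rw [div_le_one hL0]
        linarith
    _ = x := mul_one _

end Pool.Agent.U828.CV
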